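import Pool.Agent.Helper57.TOK.SubFold
import Pool.Agent.Helper57.TOK.Merge
import Pool.Agent.Helper57.TOK.Menger

/-!
# Project TD (MP_3f61ad_co, Theorem D): definitions

`Z` is a simple graph with a vertex 2-colouring `κ`, `T` a set of four terminals, `S` the other
vertices. Edges joining different colours are odd, edges joining equal colours are even.
`Soc Z κ S T` : the hypotheses of Theorem D. `Crit Z κ S T` : what is known about a minimal
counterexample (bipartite, every vertex of `S` has degree at least 3, every `Y ⊆ S` with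
at least two elements has at least 4 neighbours, no dense proper 4-set, no fold is a society).
A 4-set is a set `Y ⊆ S` with exactly 4 neighbours.
-/

set_option autoImplicit false

namespace Pool.Agent.Helper51.TD

open SimpleGraph Pool.Agent.Helper57.TOK

variable {V : Type*}

/-- the odd (bichromatic) edges -/
def oddG (Z : SimpleGraph V) (κ : V → ZMod 2) : SimpleGraph V where
  Adj u v := Z.Adj u v ∧ κ u ≠ κ v
  symm := ⟨fun _ _ h => ⟨h.1.symm, h.2.symm⟩⟩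
  loopless := ⟨fun _ h => h.2 rfl⟩

lemma oddG_adj {Z : SimpleGraph V} {κ : V → ZMod 2} {u v : V} :
    (oddG Z κ).Adj u v ↔ Z.Adj u v ∧ κ u ≠ κ v := Iff.rfl

/-- all vertices of `N` have the same colour -/
def Mono (κ : V → ZMod 2) (N : Set V) : Prop := ∀ u ∈ N, ∀ v ∈ N, κ u = κ v

open Classical in
/-- the planar bound -/
noncomputable def beta (κ : V → ZMod 2) (N : Set V) : ℤ :=
  if Mono κ N then (N.ncard : ℤ) - 2 else (N.ncard : ℤ) - 3

/-- delete the edges inside `T` -/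
def delIn (Z : SimpleGraph V) (T : Set V) : SimpleGraph V where
  Adj u v := Z.Adj u v ∧ ¬ (u ∈ T ∧ v ∈ T)
  symm := ⟨fun _ _ h => ⟨h.1.symm, fun h' => h.2 ⟨h'.2, h'.1⟩⟩⟩
  loopless := ⟨fun _ h => h.1.ne rfl⟩

lemma delIn_adj {Z : SimpleGraph V} {T : Set V} {u v : V} :
    (delIn Z T).Adj u v ↔ Z.Adj u v ∧ ¬ (u ∈ T ∧ v ∈ T) := Iff.rfl

/-- the hypotheses of Theorem D (even edges allowed) -/
structure Soc (Z : SimpleGraph V) (κ : V → ZMod 2) (S T : Set V) : Prop where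
  card : T.ncard = 4
  disj : Disjoint S T
  edge : ∀ u v, Z.Adj u v → (u ∈ S ∨ v ∈ S) ∧ u ∈ S ∪ T ∧ v ∈ S ∪ T
  m1 : beta κ T < fden (oddG Z κ) S
  m2 : ∀ Y ⊆ S, Y.Nonempty → (Nb Z Y).ncard ≤ 3 → fden (oddG Z κ) Y ≤ beta κ (Nb Z Y)
  c2 : ∀ Y ⊆ S, 2 ≤ Y.ncard → 3 ≤ (Nb Z Y).ncard
  c1 : ∀ s ∈ S, 2 ≤ (Nb Z {s}).ncard

/-- critical societies (minimal counterexamples after the elimination of even edges) -/
structure Crit (Z : SimpleGraph V) (κ : V → ZMod 2) (S T : Set V) : Prop where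
  card : T.ncard = 4
  disj : Disjoint S T
  edge : ∀ u v, Z.Adj u v → (u ∈ S ∨ v ∈ S) ∧ u ∈ S ∪ T ∧ v ∈ S ∪ T
  proper : Proper Z κ
  deg : ∀ s ∈ S, 3 ≤ (Z.neighborSet s).ncard
  conn : ∀ Y ⊆ S, 2 ≤ Y.ncard → 4 ≤ (Nb Z Y).ncard
  nbS : Nb Z S = T
  p2 : ∀ Y ⊆ S, Y ≠ S → (Nb Z Y).ncard = 4 → fden Z Y ≤ beta κ (Nb Z Y)
  p3 : fden Z S = beta κ T + 1
  noF : ¬ AllFramesE Z κ T
  noFold : ∀ y ∈ S, ∀ a b, Z.Adj y a → Z.Adj y b → a ≠ b → b ∈ S →
    (Z.neighborSet y).ncard = 3 → ¬ Soc (delIn (foldG Z y a b) T) κ (S \ {y, b}) T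

/-! ### the small 4-sets -/

/-- two cubic vertices with two common neighbours `e, g` and private neighbours `p1, p2` -/
def IsL1 (Z : SimpleGraph V) (E : Set V) : Prop :=
  ∃ w1 w2 p1 p2 e g : V, E = {w1, w2} ∧ w1 ≠ w2 ∧ Z.neighborSet w1 = {p1, e, g} ∧
    Z.neighborSet w2 = {p2, e, g} ∧ p1 ≠ p2 ∧ p1 ≠ e ∧ p1 ≠ g ∧ p2 ≠ e ∧ p2 ≠ g ∧ e ≠ g

/-- two adjacent cubic vertices -/
def IsH (Z : SimpleGraph V) (E : Set V) : Prop :=
  ∃ x1 x2 n1 n2 n3 n4 : V, E = {x1, x2} ∧ Z.neighborSet x1 = {n1, n2, x2} ∧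
    Z.neighborSet x2 = {n3, n4, x1} ∧ n1 ≠ n2 ∧ n1 ≠ x2 ∧ n2 ≠ x2 ∧ n3 ≠ n4 ∧ n3 ≠ x1 ∧ n4 ≠ x1

/-- `w ~ y1, y2, n4`; `y1 ~ w, n1, n3`; `y2 ~ w, n2, n3` -/
def IsX3 (Z : SimpleGraph V) (E : Set V) : Prop :=
  ∃ w y1 y2 n1 n2 n3 n4 : V, E = {w, y1, y2} ∧ Z.neighborSet w = {y1, y2, n4} ∧
    Z.neighborSet y1 = {w, n1, n3} ∧ Z.neighborSet y2 = {w, n2, n3} ∧
    y1 ≠ y2 ∧ y1 ≠ n4 ∧ y2 ≠ n4 ∧ w ≠ n1 ∧ w ≠ n2 ∧ w ≠ n3 ∧ n1 ≠ n2 ∧ n1 ≠ n3 ∧ n2 ≠ n3

/-- a 4-cycle `a y b c` of cubic vertices with legs `a - p`, `b - q`, `y - r`, `c - s` -/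
def IsSq (Z : SimpleGraph V) (E : Set V) : Prop :=
  ∃ a b y c p q r s : V, E = {a, b, y, c} ∧ Z.neighborSet a = {y, c, p} ∧
    Z.neighborSet b = {y, c, q} ∧ Z.neighborSet y = {a, b, r} ∧ Z.neighborSet c = {a, b, s} ∧
    a ≠ b ∧ y ≠ c ∧ p ≠ q ∧ r ≠ s ∧ p ≠ y ∧ p ≠ c ∧ q ≠ y ∧ q ≠ c ∧ r ≠ a ∧ r ≠ b ∧ s ≠ a ∧ s ≠ b

/-- the list of small 4-sets -/
def LL (Z : SimpleGraph V) (E : Set V) : Prop := E.ncard ≤ 2 ∨ IsX3 Z E ∨ IsSq Z E

/-- `X` is an inclusion-minimal 4-set which is not in the list -/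
structure MinX (Z : SimpleGraph V) (S X : Set V) : Prop where
  sub : X ⊆ S
  four : (Nb Z X).ncard = 4
  min : ∀ E ⊆ X, E ≠ X → (Nb Z E).ncard = 4 → LL Z E
  not : ¬ LL Z X

/-! ### basic facts -/

section basic

lemma beta_of_mono {κ : V → ZMod 2} {N : Set V} (h : Mono κ N) : beta κ N = (N.ncard : ℤ) - 2 :=
  if_pos h

lemma beta_of_not_mono {κ : V → ZMod 2} {N : Set V} (h : ¬ Mono κ N) :
    beta κ N = (N.ncard : ℤ) - 3 := if_neg h

lemma beta_le {κ : V → ZMod 2} (N : Set V) : beta κ N ≤ (N.ncard : ℤ) - 2 := by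
  unfold beta; split_ifs <;> omega

lemma le_beta {κ : V → ZMod 2} (N : Set V) : (N.ncard : ℤ) - 3 ≤ beta κ N := by
  unfold beta; split_ifs <;> omega

lemma Mono.subset {κ : V → ZMod 2} {M N : Set V} (h : Mono κ N) (hMN : M ⊆ N) : Mono κ M :=
  fun u hu v hv => h u (hMN hu) v (hMN hv)

/-- adding one vertex raises `beta` by at most one -/
lemma beta_insert_le [Finite V] {κ : V → ZMod 2} (N : Set V) (v : V) :
    beta κ (insert v N) ≤ beta κ N + 1 := by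
  have h1 : ((insert v N).ncard : ℤ) ≤ (N.ncard : ℤ) + 1 := by exact_mod_cast Set.ncard_insert_le v N
  by_cases hM : Mono κ (insert v N)
  · rw [beta_of_mono hM, beta_of_mono (hM.subset (Set.subset_insert v N))]
    omega
  · rw [beta_of_not_mono hM]
    have := le_beta (κ := κ) N
    omega

/-- adding a vertex with a colour that already occurs raises `beta` by exactly one -/
lemma beta_insert_of_col [Finite V] {κ : V → ZMod 2} {N : Set V} {u v : V} (hu : u ∈ N)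
    (hv : v ∉ N) (h : κ v = κ u) : beta κ (insert v N) = beta κ N + 1 := by
  have h1 : (insert v N).ncard = N.ncard + 1 := Set.ncard_insert_of_notMem hv (Set.toFinite _)
  have h2 : Mono κ (insert v N) ↔ Mono κ N := by
    constructor
    · intro hM; exact hM.subset (Set.subset_insert v N)
    · intro hM
      rintro x (rfl | hx) z (rfl | hz)
      · rfl
      · rw [h]; exact hM u hu z hz
      · rw [h]; exact hM x hx u hu
      · exact hM x hx z hz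
  by_cases hM : Mono κ N
  · rw [beta_of_mono hM, beta_of_mono (h2.2 hM), h1]; push_cast; ring
  · rw [beta_of_not_mono hM, beta_of_not_mono (fun h' => hM (h2.1 h')), h1]; push_cast; ring

lemma Nb_singleton (Z : SimpleGraph V) (s : V) : Nb Z {s} = Z.neighborSet s := by
  ext v
  simp only [mem_Nb, Set.mem_singleton_iff, SimpleGraph.mem_neighborSet]
  constructor
  · rintro ⟨-, u, rfl, h⟩; exact h
  · intro h; exact ⟨fun h' => h.ne h'.symm, s, rfl, h⟩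

/-- two colours: if `κ u ≠ κ w` and `κ v ≠ κ w` then `κ u = κ v` -/
lemma col_eq {x y z : ZMod 2} (h1 : x ≠ z) (h2 : y ≠ z) : x = y := by
  revert x y z; decide

lemma col_add_one {x y : ZMod 2} (h : x + y = 1) : x ≠ y := by
  revert x y; decide

end basic

section crit

variable {Z : SimpleGraph V} {κ : V → ZMod 2} {S T : Set V}

lemma Crit.ne_col (hC : Crit Z κ S T) {u v : V} (h : Z.Adj u v) : κ u ≠ κ v :=
  col_add_one (hC.proper u v h)

/-- neighbours of one vertex have the same colour -/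
lemma Crit.nb_col (hC : Crit Z κ S T) {y a b : V} (ha : Z.Adj y a) (hb : Z.Adj y b) :
    κ a = κ b := col_eq (hC.ne_col ha).symm (hC.ne_col hb).symm

lemma Crit.not_adj_of_col (hC : Crit Z κ S T) {u v : V} (h : κ u = κ v) : ¬ Z.Adj u v :=
  fun h' => hC.ne_col h' h

/-- two neighbours of one vertex are not adjacent -/
lemma Crit.not_adj (hC : Crit Z κ S T) {y a b : V} (ha : Z.Adj y a) (hb : Z.Adj y b) :
    ¬ Z.Adj a b := hC.not_adj_of_col (hC.nb_col ha hb)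

lemma Crit.oddG_eq (hC : Crit Z κ S T) : oddG Z κ = Z := by
  ext u v
  exact ⟨fun h => h.1, fun h => ⟨h, hC.ne_col h⟩⟩

lemma Crit.not_mem_T (hC : Crit Z κ S T) {s : V} (hs : s ∈ S) : s ∉ T :=
  fun h => Set.disjoint_left.1 hC.disj hs h

lemma Crit.not_adj_T (hC : Crit Z κ S T) {a b : V} (ha : a ∈ T) (hb : b ∈ T) : ¬ Z.Adj a b := by
  intro h
  rcases (hC.edge a b h).1 with h1 | h1
  · exact hC.not_mem_T h1 ha
  · exact hC.not_mem_T h1 hb

lemma Crit.nb_mem (hC : Crit Z κ S T) {u v : V} (h : Z.Adj u v) : v ∈ S ∪ T := (hC.edge u v h).2.2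

lemma Crit.Nb_subset (hC : Crit Z κ S T) (Y : Set V) : Nb Z Y ⊆ S ∪ T := by
  rintro v ⟨-, u, -, h⟩
  exact hC.nb_mem h

lemma Crit.mem_S_of_not_T (hC : Crit Z κ S T) {u v : V} (h : Z.Adj u v) (hv : v ∉ T) : v ∈ S :=
  (hC.nb_mem h).resolve_right hv

/-- every nonempty subset of `S` has at least 3 neighbours -/
lemma Crit.three_le_Nb (hC : Crit Z κ S T) [Finite V] {Y : Set V} (hY : Y ⊆ S) (hne : Y.Nonempty) :
    3 ≤ (Nb Z Y).ncard := by
  have h1 : 1 ≤ Y.ncard := (Set.ncard_pos (Set.toFinite _)).2 hne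
  rcases Nat.lt_or_ge 1 Y.ncard with h | h
  · exact (hC.conn Y hY h).trans' (by norm_num)
  · obtain ⟨y, rfl⟩ := Set.ncard_eq_one.1 (le_antisymm h h1)
    rw [Nb_singleton]
    exact hC.deg y (hY rfl)

/-- a nonempty set with at most 3 neighbours is a single vertex -/
lemma Crit.single (hC : Crit Z κ S T) [Finite V] {Y : Set V} (hY : Y ⊆ S) (hne : Y.Nonempty)
    (h3 : (Nb Z Y).ncard ≤ 3) : ∃ y ∈ S, Y = {y} := by
  have h1 : 1 ≤ Y.ncard := (Set.ncard_pos (Set.toFinite _)).2 hne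
  rcases Nat.lt_or_ge 1 Y.ncard with h | h
  · have := hC.conn Y hY h; omega
  · obtain ⟨y, rfl⟩ := Set.ncard_eq_one.1 (le_antisymm h h1)
    exact ⟨y, hY rfl, rfl⟩

lemma mem_Nb_of_adj {u v : V} {Y : Set V} (hu : u ∈ Y) (h : Z.Adj u v) (hv : v ∉ Y) :
    v ∈ Nb Z Y := ⟨hv, u, hu, h⟩

/-- a neighbour of a vertex of `Y` is in `Y ∪ Nb Z Y` -/
lemma mem_union_Nb {u v : V} {Y : Set V} (hu : u ∈ Y) (h : Z.Adj u v) : v ∈ Y ∪ Nb Z Y := by
  by_cases hv : v ∈ Y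
  · exact Or.inl hv
  · exact Or.inr (mem_Nb_of_adj hu h hv)

lemma disjoint_Nb (Z : SimpleGraph V) (Y : Set V) : Disjoint Y (Nb Z Y) :=
  Set.disjoint_left.2 (fun _ h h' => h'.1 h)

end crit

end Pool.Agent.Helper51.TD
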